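import Pool.Agent.L7h39.TM.Cnt

/-!
# The lower bound for the time
-/

set_option autoImplicit false

namespace Pool.Agent.L7h39.TM

open Finset

variable {m p : ℕ} {Q : Type}

theorem pow_le_fact (k : ℕ) : k ^ k ≤ 3 ^ k * k.factorial := by
  have h1 : (k : ℝ) ^ k / k.factorial ≤ Real.exp k := Real.pow_div_factorial_le_exp _ (Nat.cast_nonneg k) k
  have h2 : Real.exp k ≤ 3 ^ k := by
    have : Real.exp k = Real.exp 1 ^ k := by
      rw [← Real.exp_nat_mul]; simp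
    rw [this]
    exact pow_le_pow_left₀ (Real.exp_pos _).le (by have := Real.exp_one_lt_d9; linarith) k
  have h3 : (0 : ℝ) < k.factorial := by exact_mod_cast Nat.factorial_pos k
  rw [div_le_iff₀ h3] at h1
  have h4 : (k : ℝ) ^ k ≤ 3 ^ k * k.factorial := h1.trans (mul_le_mul_of_nonneg_right h2 h3.le)
  exact_mod_cast h4

theorem num_bad (N k r : ℕ) (hk : 0 < k) (h1 : 3 * r ^ 2 ≤ k * N) (h2 : 2 * k ≤ N) :
    4 ^ k * (N.choose k * (r ^ (2 * k) * (3 * N - 2 * k).factorial)) ≤ (3 * N).factorial := by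
  have h3 : 4 ^ k * (N.choose k * r ^ (2 * k)) ≤ (2 * N) ^ (2 * k) := by
    have hkk : 0 < k ^ k := Nat.pow_pos hk
    refine Nat.le_of_mul_le_mul_left ?_ hkk
    calc k ^ k * (4 ^ k * (N.choose k * r ^ (2 * k)))
        ≤ (3 ^ k * k.factorial) * (4 ^ k * (N.choose k * r ^ (2 * k))) := Nat.mul_le_mul_right _ (pow_le_fact k)
      _ = (k.factorial * N.choose k) * (3 ^ k * 4 ^ k * (r ^ 2) ^ k) := by rw [← pow_mul]; ring
      _ = N.descFactorial k * (4 * (3 * r ^ 2)) ^ k := by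
          rw [← Nat.descFactorial_eq_factorial_mul_choose, ← mul_pow, ← mul_pow]
          congr 2; ring
      _ ≤ N ^ k * (4 * (k * N)) ^ k :=
          Nat.mul_le_mul (Nat.descFactorial_le_pow _ _) (Nat.pow_le_pow_left (Nat.mul_le_mul_left _ h1) k)
      _ = k ^ k * (2 * N) ^ (2 * k) := by
          rw [pow_mul, ← mul_pow, ← mul_pow]; congr 1; ring
  calc 4 ^ k * (N.choose k * (r ^ (2 * k) * (3 * N - 2 * k).factorial))
      = 4 ^ k * (N.choose k * r ^ (2 * k)) * (3 * N - 2 * k).factorial := by ring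
    _ ≤ (2 * N) ^ (2 * k) * (3 * N - 2 * k).factorial := Nat.mul_le_mul_right _ h3
    _ ≤ (3 * N - 2 * k) ^ (2 * k) * (3 * N - 2 * k).factorial :=
        Nat.mul_le_mul_right _ (Nat.pow_le_pow_left (by omega) _)
    _ ≤ (3 * N).factorial := by
        have := Nat.factorial_mul_pow_sub_le_factorial (n := 3 * N - 2 * k) (m := 3 * N) (by omega)
        rw [show 3 * N - (3 * N - 2 * k) = 2 * k by omega] at this
        rwa [mul_comm]

open Classical in
theorem inv_bound {Ω : Type} [Fintype Ω] [Fintype Q] (M : Ω → Machine m p Q) (w : Ω → ℝ) (hw : ∀ ω, 0 ≤ w ω)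
    (hw1 : ∑ ω, w ω = 1) (T S : ℕ) (hQ : Fintype.card Q ≤ 2 ^ S) (hinv : ∀ ω, (M ω).Inv T)
    (D : ℕ) (hD : 0 < D)
    (hM : ∀ x : Fin m → ℕ × ℕ, IsEdgeList x → NearMatching x → ∀ b : Bool, (b = true ↔ HasTriangle x) →
      1 / 2 + 1 / (D : ℝ) ≤ ∑ ω with (M ω).Answers x T b, w ω) :
    m ^ 3 ≤ 165888 * D ^ 2 * (T + m) ^ 2 * (S + (p + 1) * (Nat.log 2 m + 1)) := by
  rcases Nat.eq_zero_or_pos m with hm0 | hm0
  · rw [hm0]; simp
  obtain ⟨l, hl⟩ : ∃ l, l = Nat.log 2 m := ⟨_, rfl⟩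
  obtain ⟨N, hN⟩ : ∃ N, N = m / 3 := ⟨_, rfl⟩
  obtain ⟨k, hk⟩ : ∃ k, k = S + (p + 2) * (l + 3) := ⟨_, rfl⟩
  rw [← hl]
  have hk6 : k ≤ 6 * (S + (p + 1) * (l + 1)) := by
    have : (p + 2) * (l + 3) ≤ (2 * (p + 1)) * (3 * (l + 1)) := Nat.mul_le_mul (by omega) (by omega)
    rw [hk]; nlinarith
  have hkbig : 6 ≤ k := by
    have : 2 * 3 ≤ (p + 2) * (l + 3) := Nat.mul_le_mul (by omega) (by omega)
    omega
  have hpk : p ≤ k := by
    have : (p + 2) * 1 ≤ (p + 2) * (l + 3) := Nat.mul_le_mul_left _ (by omega)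
    omega
  suffices h : m ^ 3 ≤ 27648 * (D ^ 2 * ((T + m) ^ 2 * k)) by
    refine h.trans ?_
    calc 27648 * (D ^ 2 * ((T + m) ^ 2 * k)) ≤
          27648 * (D ^ 2 * ((T + m) ^ 2 * (6 * (S + (p + 1) * (l + 1))))) :=
          Nat.mul_le_mul_left _ (Nat.mul_le_mul_left _ (Nat.mul_le_mul_left _ hk6))
      _ = _ := by ring
  have hD2 : D ≤ D ^ 2 := by rw [pow_two]; exact Nat.le_mul_of_pos_left _ hD
  have hmN : m ≤ 3 * N + 2 := by omega
  have hNm : 3 * N ≤ m := by omega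
  have hTm : m ^ 2 ≤ (T + m) ^ 2 := Nat.pow_le_pow_left (by omega) 2
  by_cases hcase : N < 6 * (D * k)
  · calc m ^ 3 = m ^ 2 * m := by ring
      _ ≤ (T + m) ^ 2 * (18 * (D * k)) := Nat.mul_le_mul hTm (by omega)
      _ = 18 * (D * ((T + m) ^ 2 * k)) := by ring
      _ ≤ 27648 * (D ^ 2 * ((T + m) ^ 2 * k)) := Nat.mul_le_mul (by norm_num) (Nat.mul_le_mul_right _ hD2)
  rw [not_lt] at hcase
  have hDk : k ≤ D * k := Nat.le_mul_of_pos_left _ hD
  by_cases hTbig : m ^ 2 ≤ T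
  · have h1 : m ^ 3 ≤ (T + m) ^ 2 := by
      calc m ^ 3 ≤ (m ^ 2) ^ 2 := by rw [← pow_mul]; exact Nat.pow_le_pow_right hm0 (by norm_num)
        _ ≤ (T + m) ^ 2 := Nat.pow_le_pow_left (by omega) 2
    calc m ^ 3 ≤ (T + m) ^ 2 * 1 := by rw [mul_one]; exact h1
      _ ≤ (T + m) ^ 2 * k := Nat.mul_le_mul_left _ (by omega)
      _ ≤ D ^ 2 * ((T + m) ^ 2 * k) := Nat.le_mul_of_pos_left _ (by positivity)
      _ ≤ _ := Nat.le_mul_of_pos_left _ (by norm_num)
  rw [not_le] at hTbig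
  -- the length of a stage
  obtain ⟨r, hr⟩ : ∃ r, r = Nat.sqrt (k * N / 3) := ⟨_, rfl⟩
  have hkN : 6 * 36 ≤ k * N := Nat.mul_le_mul hkbig (by omega)
  have hr0 : 0 < r := by
    rw [hr, Nat.sqrt_pos]
    omega
  have hr1 : 3 * r ^ 2 ≤ k * N := by
    have : r ^ 2 ≤ k * N / 3 := by rw [hr]; exact Nat.sqrt_le' _
    omega
  have hr2 : k * N ≤ 12 * r ^ 2 := by
    have h1 : k * N / 3 < (r + 1) ^ 2 := by rw [hr]; exact Nat.lt_succ_sqrt' _
    have h2 : (r + 1) ^ 2 ≤ (2 * r) ^ 2 := Nat.pow_le_pow_left (by omega) 2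
    have h3 : (2 * r) ^ 2 = 4 * r ^ 2 := by ring
    omega
  -- the bad orders
  obtain ⟨J, hJ⟩ : ∃ J, J = T / r + 1 := ⟨_, rfl⟩
  have hJ1 : J * r ≤ T + r := by
    rw [hJ, add_mul, one_mul]
    exact Nat.add_le_add_right (Nat.div_mul_le_self T r) r
  have hJ2 : J ≤ m ^ 2 := by
    have := Nat.div_le_self T r
    omega
  have hml : m < 2 ^ (l + 1) := by
    rw [hl]; exact Nat.lt_pow_succ_log_self (by norm_num) m
  have hbad : N * (J * (3 * (Fintype.card Q * (2 * m + 5) ^ p))) ≤ 4 ^ k := by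
    have h1 : (2 * m + 5) ^ p ≤ (2 ^ (l + 3)) ^ p := by
      apply Nat.pow_le_pow_left
      have : 2 ^ (l + 3) = 4 * 2 ^ (l + 1) := by ring
      have h4 : 2 ≤ 2 ^ (l + 1) := by
        have : 1 ≤ 2 ^ l := Nat.one_le_two_pow
        rw [pow_succ]; omega
      omega
    have h2 : J ≤ (2 ^ (l + 1)) ^ 2 := hJ2.trans (Nat.pow_le_pow_left hml.le 2)
    calc N * (J * (3 * (Fintype.card Q * (2 * m + 5) ^ p)))
        ≤ 2 ^ (l + 1) * ((2 ^ (l + 1)) ^ 2 * (2 ^ 2 * (2 ^ S * (2 ^ (l + 3)) ^ p))) :=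
          Nat.mul_le_mul (by omega) (Nat.mul_le_mul h2 (Nat.mul_le_mul (by norm_num) (Nat.mul_le_mul hQ h1)))
      _ = 2 ^ (3 * l + 5 + S + (l + 3) * p) := by
          rw [← pow_mul, ← pow_mul, ← pow_add, ← pow_add, ← pow_add, ← pow_add]; congr 1; ring
      _ ≤ 2 ^ (2 * k) := by
          apply Nat.pow_le_pow_right (by norm_num)
          rw [hk]
          nlinarith [Nat.zero_le (p * l)]
      _ = 4 ^ k := by rw [pow_mul]; norm_num
  have hB : ∀ ω, ∑ σ : Ps m ≃ Lb m, ((M ω).seen T σ).card ≤ (3 * N).factorial * (J * (p + 3 * k) + 1) := by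
    intro ω
    refine (sum_seen (M ω) T r k hr0).trans ?_
    rw [← hJ, ← hN, show (3 * N).factorial * (J * (p + 3 * k) + 1) = (3 * N).factorial * (J * (p + 3 * k)) +
      (3 * N).factorial by ring]
    apply Nat.add_le_add_left
    have hX := num_bad N k r (by omega) hr1 (by omega)
    calc N * (J * (3 * (Fintype.card Q * (2 * m + 5) ^ p)) * (N.choose k * (r ^ (2 * k) * (3 * N - 2 * k).factorial)))
        = (N * (J * (3 * (Fintype.card Q * (2 * m + 5) ^ p)))) *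
          (N.choose k * (r ^ (2 * k) * (3 * N - 2 * k).factorial)) := by
          ring
      _ ≤ 4 ^ k * (N.choose k * (r ^ (2 * k) * (3 * N - 2 * k).factorial)) := Nat.mul_le_mul_right _ hbad
      _ ≤ _ := hX
  have hmain := main_ineq M w hw hw1 T hinv D hM hD _ hB
  rw [← hN] at hmain
  have hN1 : 2 * N ≤ D * (J * (p + 3 * k) + 1) := by
    have hpos : 0 < (3 * N).factorial := Nat.factorial_pos _
    refine Nat.le_of_mul_le_mul_left ?_ hpos
    calc (3 * N).factorial * (2 * N) = 2 * (N * (3 * N).factorial) := by ring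
      _ ≤ D * ((3 * N).factorial * (J * (p + 3 * k) + 1)) := hmain
      _ = (3 * N).factorial * (D * (J * (p + 3 * k) + 1)) := by ring
  have hJpos : 1 ≤ J := by rw [hJ]; exact Nat.le_add_left 1 _
  have hJk : 6 ≤ J * k := le_trans (by omega) (Nat.mul_le_mul hJpos hkbig)
  have hN3 : N ≤ 3 * (D * (J * k)) := by
    have h1 : D * (J * (p + 3 * k)) ≤ D * (J * (4 * k)) := Nat.mul_le_mul_left _ (Nat.mul_le_mul_left _ (by omega))
    have h2 : D * (J * (4 * k)) = 4 * (D * (J * k)) := by ring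
    have h3 : D * (J * (p + 3 * k) + 1) = D * (J * (p + 3 * k)) + D := by ring
    have h4 : D * 6 ≤ D * (J * k) := Nat.mul_le_mul_left _ hJk
    omega
  have hNr : N * r ≤ 6 * (D * (k * T)) := by
    have h1 : N * r ≤ 3 * (D * (k * (T + r))) := by
      calc N * r ≤ 3 * (D * (J * k)) * r := Nat.mul_le_mul_right _ hN3
        _ = 3 * (D * (k * (J * r))) := by ring
        _ ≤ _ := Nat.mul_le_mul_left _ (Nat.mul_le_mul_left _ (Nat.mul_le_mul_left _ hJ1))
    have h2 : 6 * (D * k) * r ≤ N * r := Nat.mul_le_mul_right _ hcase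
    have h3 : D * (k * (T + r)) = D * (k * T) + D * (k * r) := by ring
    have h4 : 6 * (D * k) * r = 6 * (D * (k * r)) := by ring
    omega
  have hN4 : N ^ 3 ≤ 432 * (D ^ 2 * (T ^ 2 * k)) := by
    have hkpos : 0 < k := by omega
    refine Nat.le_of_mul_le_mul_left ?_ hkpos
    calc k * N ^ 3 = (k * N) * N ^ 2 := by ring
      _ ≤ (12 * r ^ 2) * N ^ 2 := Nat.mul_le_mul_right _ hr2
      _ = 12 * (N * r) ^ 2 := by ring
      _ ≤ 12 * (6 * (D * (k * T))) ^ 2 := Nat.mul_le_mul_left _ (Nat.pow_le_pow_left hNr 2)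
      _ = k * (432 * (D ^ 2 * (T ^ 2 * k))) := by ring
  calc m ^ 3 ≤ (4 * N) ^ 3 := Nat.pow_le_pow_left (by omega) 3
    _ = 64 * N ^ 3 := by ring
    _ ≤ 64 * (432 * (D ^ 2 * (T ^ 2 * k))) := Nat.mul_le_mul_left _ hN4
    _ = 27648 * (D ^ 2 * (T ^ 2 * k)) := by ring
    _ ≤ 27648 * (D ^ 2 * ((T + m) ^ 2 * k)) :=
        Nat.mul_le_mul le_rfl (Nat.mul_le_mul_left _ (Nat.mul_le_mul_right _ (Nat.pow_le_pow_left (by omega) 2)))

open Classical in
/-- The lower bound for the time, for all machines. -/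
theorem bound {Ω : Type} [Fintype Ω] [Fintype Q] (M : Ω → Machine m p Q) (w : Ω → ℝ) (hw : ∀ ω, 0 ≤ w ω)
    (hw1 : ∑ ω, w ω = 1) (T S : ℕ) (hQ : Fintype.card Q ≤ 2 ^ S) (D : ℕ) (hD : 0 < D)
    (hM : ∀ x : Fin m → ℕ × ℕ, IsEdgeList x → NearMatching x → ∀ b : Bool, (b = true ↔ HasTriangle x) →
      1 / 2 + 1 / (D : ℝ) ≤ ∑ ω with (M ω).Answers x T b, w ω) :
    m ^ 3 ≤ 165888 * D ^ 2 * (T + m) ^ 2 * (S + (p + 1) * (Nat.log 2 m + 1)) := by
  obtain ⟨H, hH, hH0, hinv⟩ := exists_pull_inv M T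
  refine inv_bound (fun ω => (M ω).pull H) w hw hw1 T S hQ hinv D hD ?_
  intro x hx hx' b hb
  have h1 := hM (mapI H x) (mapI_edgeList hH.injective hx) (mapI_near hH.injective hx') b
    (by rw [mapI_triangle hH.injective]; exact hb)
  simpa only [answers_pull (M _) hH.injective hH0 x T] using h1

theorem answers_mono (M : Machine m p Q) (x : Fin m → ℕ × ℕ) {t T : ℕ} (h : t ≤ T) (b : Bool)
    (ha : M.Answers x t b) : M.Answers x T b := by
  unfold Machine.Answers at ha ⊢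
  have h1 := run_conf M x (T - t) (t + 1)
  rw [ha, run_inr, show t + 1 + (T - t) = T + 1 by omega] at h1
  exact h1.symm

open Classical in
/-- The lower bound for the expected time. -/
theorem bound_exp {Ω : Type} [Fintype Ω] [Fintype Q] (M : Ω → Machine m p Q) (w : Ω → ℝ) (hw : ∀ ω, 0 ≤ w ω)
    (hw1 : ∑ ω, w ω = 1) (S : ℕ) (hQ : Fintype.card Q ≤ 2 ^ S) (D : ℕ) (hD : 0 < D) (E : ℝ)
    (hM : ∀ x : Fin m → ℕ × ℕ, IsEdgeList x → NearMatching x → ∃ (time : Ω → ℕ) (ans : Ω → Bool),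
      (∀ ω, (M ω).Answers x (time ω) (ans ω)) ∧ ∑ ω, w ω * time ω ≤ E ∧
      1 / 2 + 1 / (D : ℝ) ≤ ∑ ω with (ans ω = true ↔ HasTriangle x), w ω) :
    (m : ℝ) ^ 3 ≤ 3 * 10 ^ 6 * D ^ 4 * (E + m) ^ 2 * (S + (p + 1) * (Nat.log 2 m + 1)) := by
  have hD1 : (1 : ℝ) ≤ D := by exact_mod_cast hD
  have hE : 0 ≤ E := by
    have σ : Ps m ≃ Lb m := Fintype.equivOfCardEq (by simp; ring)
    obtain ⟨time, ans, _, h, _⟩ := hM _ (inp_edgeList σ) (inp_near σ)
    refine le_trans (sum_nonneg (fun ω _ => ?_)) h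
    have := hw ω
    positivity
  obtain ⟨T, hT⟩ : ∃ T, T = ⌊2 * D * E⌋₊ := ⟨_, rfl⟩
  have hT1 : (T : ℝ) ≤ 2 * D * E := by rw [hT]; exact Nat.floor_le (by positivity)
  have hT2 : 2 * D * E < T + 1 := by rw [hT]; exact Nat.lt_floor_add_one _
  have key := bound M w hw hw1 T S hQ (2 * D) (by omega) (by
    intro x hx hx' b hb
    obtain ⟨time, ans, h1, h2, h3⟩ := hM x hx hx'
    have hmar : ∑ ω with T < time ω, w ω ≤ 1 / (2 * D) := by
      have h4 : (T + 1 : ℝ) * ∑ ω with T < time ω, w ω ≤ E := by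
        refine le_trans ?_ h2
        rw [mul_sum]
        refine (sum_le_sum (fun ω hω => ?_)).trans
          (sum_le_univ_sum_of_nonneg (s := univ.filter (fun ω => T < time ω)) (fun ω => ?_))
        · have h5 : T + 1 ≤ time ω := (mem_filter.1 hω).2
          have h6 : (T + 1 : ℝ) ≤ time ω := by exact_mod_cast h5
          rw [mul_comm]
          exact mul_le_mul_of_nonneg_left h6 (hw ω)
        · have := hw ω
          positivity
      have h7 : 0 ≤ ∑ ω with T < time ω, w ω := sum_nonneg (fun ω _ => hw ω)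
      have h8 : (0 : ℝ) < T + 1 := by positivity
      by_contra h9
      rw [not_le] at h9
      have h10 : (T + 1 : ℝ) * (1 / (2 * D)) < (T + 1 : ℝ) * ∑ ω with T < time ω, w ω :=
        mul_lt_mul_of_pos_left h9 h8
      have h11 : (T + 1 : ℝ) * (1 / (2 * D)) < E := lt_of_lt_of_le h10 h4
      rw [mul_one_div, div_lt_iff₀ (by positivity)] at h11
      linarith
    have hsub : ∑ ω with (ans ω = true ↔ HasTriangle x), w ω ≤
        ∑ ω with (M ω).Answers x T b, w ω + ∑ ω with T < time ω, w ω := by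
      rw [sum_filter, sum_filter, sum_filter, ← sum_add_distrib]
      refine sum_le_sum (fun ω _ => ?_)
      have h0 := hw ω
      by_cases ht : T < time ω
      · simp only [ht, if_true]
        have h11 : (0 : ℝ) ≤ if (M ω).Answers x T b then w ω else 0 := by split <;> simp [h0]
        split <;> linarith
      · simp only [ht, if_false, add_zero]
        by_cases ha : (ans ω = true ↔ HasTriangle x)
        · have hab : ans ω = b := by
            rw [← hb] at ha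
            cases h12 : ans ω <;> cases h13 : b <;> simp [h12, h13] at ha ⊢
          have h14 := answers_mono (M ω) x (not_lt.1 ht) (ans ω) (h1 ω)
          rw [hab] at h14
          simp only [ha, h14, if_true]
          exact le_rfl
        · simp only [ha, if_false]
          split <;> simp [h0]
    have h15 : (1 : ℝ) / ((2 * D : ℕ) : ℝ) = 1 / (2 * D) := by push_cast; ring
    have h19 : (1 : ℝ) / D = 1 / (2 * D) + 1 / (2 * D) := by field_simp; norm_num
    rw [h15]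
    linarith)
  have hkey : (m : ℝ) ^ 3 ≤ 165888 * (2 * D) ^ 2 * (T + m) ^ 2 * (S + (p + 1) * (Nat.log 2 m + 1)) := by
    exact_mod_cast key
  refine hkey.trans ?_
  apply mul_le_mul_of_nonneg_right _ (by positivity)
  have h16 : ((T : ℝ) + m) ^ 2 ≤ (2 * D * (E + m)) ^ 2 := by
    apply pow_le_pow_left₀ (by positivity)
    have : (0 : ℝ) ≤ m := Nat.cast_nonneg m
    nlinarith
  calc 165888 * (2 * (D : ℝ)) ^ 2 * (T + m) ^ 2 ≤ 165888 * (2 * (D : ℝ)) ^ 2 * (2 * D * (E + m)) ^ 2 :=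
        mul_le_mul_of_nonneg_left h16 (by positivity)
    _ = 2654208 * (D ^ 4 * (E + (m : ℝ)) ^ 2) := by ring
    _ ≤ 3 * 10 ^ 6 * (D ^ 4 * (E + (m : ℝ)) ^ 2) := mul_le_mul_of_nonneg_right (by norm_num) (by positivity)
    _ = _ := by ring

end Pool.Agent.L7h39.TM
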