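import Pool.Agent.L7h39.TM.Run

/-!
# Order invariant machines see few groups
-/

set_option autoImplicit false

namespace Pool.Agent.L7h39.TM

open Finset Pool.Agent.L7h39.TN

variable {m p : ℕ} {Q : Type}

/-- The groups which are hit by names. -/
def hit (a : Fin p → ℕ) : Finset (Fin (m / 3)) :=
  univ.biUnion (fun j : Fin p => univ.filter (fun i : Fin (m / 3) => 5 + 6 * i.1 ≤ a j ∧ a j < 5 + 6 * i.1 + 6))

theorem card_hit (a : Fin p → ℕ) : (hit (m := m) a).card ≤ p := by
  unfold hit
  refine (card_biUnion_le_card_mul _ _ 1 ?_).trans (by simp)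
  intro j _
  rw [card_le_one]
  intro b hb b' hb'
  simp only [mem_filter, mem_univ, true_and] at hb hb'
  exact Fin.ext (by omega)

/-- The groups for which all edges, except perhaps the edge number `c`, are in a set. -/
def full (c : Fin 3) (F : Finset (Ps m)) (σ : Ps m ≃ Lb m) : Finset (Fin (m / 3)) :=
  univ.filter (fun i => ∀ j, j ≠ c → (i, j) ∈ F.image σ)

theorem card_full (c : Fin 3) (d : DT (Ps m) (Lb m)) (R k : ℕ) (hd : DLe R d) :
    (univ.filter (fun σ : Ps m ≃ Lb m => k ≤ (full c (touched d σ) σ).card)).card ≤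
      (m / 3).choose k * (R ^ (2 * k) * (3 * (m / 3) - 2 * k).factorial) := by
  have hVW : Fintype.card (Ps m) = Fintype.card (Lb m) := by simp; ring
  have h1 : (univ.filter (fun σ : Ps m ≃ Lb m => k ≤ (full c (touched d σ) σ).card)) ⊆
      (powersetCard k (univ : Finset (Fin (m / 3)))).biUnion (fun K =>
        univ.filter (fun σ : Ps m ≃ Lb m => K ×ˢ ((univ : Finset (Fin 3)).erase c) ⊆ (touched d σ).image σ)) := by
    intro σ hσ
    simp only [mem_filter, mem_univ, true_and] at hσ
    obtain ⟨K, hK, hc⟩ := exists_subset_card_eq hσ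
    simp only [mem_biUnion, mem_powersetCard, mem_filter, mem_univ, true_and]
    refine ⟨K, ⟨subset_univ _, hc⟩, ?_⟩
    rintro ⟨b, s⟩ hb
    rw [mem_product] at hb
    have hb' := hK hb.1
    simp only [full, mem_filter, mem_univ, true_and] at hb'
    exact hb' s (ne_of_mem_erase hb.2)
  refine (card_le_card h1).trans ((card_biUnion_le_card_mul _ _ (R ^ (2 * k) * (3 * (m / 3) - 2 * k).factorial) ?_).trans ?_)
  · intro K hK
    have := count' hVW R d hd (K ×ˢ ((univ : Finset (Fin 3)).erase c))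
    rw [card_product, (mem_powersetCard.1 hK).2, card_erase_of_mem (mem_univ c)] at this
    simp only [card_univ, Fintype.card_fin, Nat.add_one_sub_one] at this
    rwa [mul_comm k 2] at this
  · rw [card_powersetCard, card_univ, Fintype.card_fin]

/-- One of the stages reads many groups, for some configuration at its start. -/
def Machine.Bad (M : Machine m p Q) (T r k : ℕ) (σ : Ps m ≃ Lb m) : Prop :=
  ∃ (j : Fin (T / r + 1)) (c : Fin 3) (cf : Q × (Fin p → Fin (2 * m + 5))),
    k ≤ (full c (touched (M.stage r (j.1 * r) (cf.1, fun i => (cf.2 i).1)) σ) σ).card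

open Classical in
theorem card_bad [Fintype Q] (M : Machine m p Q) (T r k : ℕ) :
    (univ.filter (fun σ : Ps m ≃ Lb m => M.Bad T r k σ)).card ≤
      ((T / r + 1) * (3 * (Fintype.card Q * (2 * m + 5) ^ p))) *
        ((m / 3).choose k * (r ^ (2 * k) * (3 * (m / 3) - 2 * k).factorial)) := by
  have h1 : (univ.filter (fun σ : Ps m ≃ Lb m => M.Bad T r k σ)) ⊆
      (univ : Finset (Fin (T / r + 1) × (Fin 3 × (Q × (Fin p → Fin (2 * m + 5)))))).biUnion (fun u =>
        univ.filter (fun σ : Ps m ≃ Lb m =>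
          k ≤ (full u.2.1 (touched (M.stage r (u.1.1 * r) (u.2.2.1, fun i => (u.2.2.2 i).1)) σ) σ).card)) := by
    intro σ hσ
    simp only [mem_filter, mem_univ, true_and] at hσ
    obtain ⟨j, c, cf, h⟩ := hσ
    simp only [mem_biUnion, mem_filter, mem_univ, true_and]
    exact ⟨(j, c, cf), h⟩
  refine (card_le_card h1).trans ((card_biUnion_le_card_mul _ _
    ((m / 3).choose k * (r ^ (2 * k) * (3 * (m / 3) - 2 * k).factorial)) ?_).trans ?_)
  · rintro u _
    exact card_full _ _ r k (dle_stage M r _ _)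
  · simp

/-- The groups which the machine sees. -/
noncomputable def Machine.seen (M : Machine m p Q) (T : ℕ) (σ : Ps m ≃ Lb m) : Finset (Fin (m / 3)) := by
  classical exact univ.filter (fun i => ∃ t ≤ T,
    Two (5 + 6 * i.1) (M.exam (inp m σ) t (M.conf (inp m σ) t)))

/-- The groups which can be seen in the stage number `j`. -/
def Machine.stg (M : Machine m p Q) (r : ℕ) (σ : Ps m ≃ Lb m) (j : ℕ) : Finset (Fin (m / 3)) :=
  match M.conf (inp m σ) (j * r) with
  | Sum.inl c => hit c.2 ∪ univ.biUnion (fun d => full d (touched (M.stage r (j * r) c) σ) σ)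
  | Sum.inr _ => ∅

theorem third : ∀ j1 j2 : Fin 3, j1 ≠ j2 → ∃ c : Fin 3, ∀ j, j ≠ c → j = j1 ∨ j = j2 := by decide

theorem card_seen (M : Machine m p Q) (T r k : ℕ) (hr : 0 < r) (σ : Ps m ≃ Lb m)
    (h : ¬ M.Bad T r k σ) : (M.seen T σ).card ≤ (T / r + 1) * (p + 3 * k) := by
  classical
  have h1 : M.seen T σ ⊆ (range (T / r + 1)).biUnion (fun j => M.stg r σ j) := by
    intro i hi
    simp only [Machine.seen, mem_filter, mem_univ, true_and] at hi
    obtain ⟨t, ht, u, hu, v, hv, hu1, hu2, hv1, hv2, huv⟩ := hi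
    simp only [mem_biUnion, mem_range]
    refine ⟨t / r, Nat.lt_succ_of_le (Nat.div_le_div_right ht), ?_⟩
    have ht' : t / r * r + t % r = t := Nat.div_add_mod' t r
    have hrun := run_conf M (inp m σ) (t % r) (t / r * r)
    rw [ht'] at hrun
    rw [← hrun] at hu hv
    unfold Machine.stg
    rcases hc : M.conf (inp m σ) (t / r * r) with c | a
    · rw [hc] at hu hv
      have k0 := stage_spec M σ r (t / r * r) c (t % r) (Nat.mod_lt _ hr) u (by rw [ht']; exact hu)
      have k1 := stage_spec M σ r (t / r * r) c (t % r) (Nat.mod_lt _ hr) v (by rw [ht']; exact hv)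
      simp only [mem_union]
      rcases k0 with k0 | ⟨j, k0⟩ | ⟨w, hw, k0⟩
      · omega
      · left
        simp only [hit, mem_biUnion, mem_filter, mem_univ, true_and]
        exact ⟨j, by omega⟩
      · rcases k1 with k1 | ⟨j, k1⟩ | ⟨w', hw', k1⟩
        · omega
        · left
          simp only [hit, mem_biUnion, mem_filter, mem_univ, true_and]
          exact ⟨j, by omega⟩
        · right
          have b1 := (σ w).2.2
          have b2 := (σ w').2.2
          unfold edg at k0 k1
          simp only at k0 k1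
          have e1 : (σ w).1 = i := Fin.ext (by omega)
          have e2 : (σ w').1 = i := Fin.ext (by omega)
          rw [e1] at k0
          rw [e2] at k1
          have hne : (σ w).2 ≠ (σ w').2 := by
            intro hh
            rw [← hh] at k1
            apply huv
            omega
          obtain ⟨d, hd⟩ := third _ _ hne
          simp only [mem_biUnion, full, mem_filter, mem_univ, true_and, mem_image]
          refine ⟨d, fun j hj => ?_⟩
          rcases hd j hj with rfl | rfl
          · exact ⟨w, hw, Prod.ext e1 rfl⟩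
          · exact ⟨w', hw', Prod.ext e2 rfl⟩
    · rw [hc, run_inr] at hu
      simp [Machine.exam] at hu
  refine (card_le_card h1).trans ((card_biUnion_le_card_mul _ _ (p + 3 * k) ?_).trans (by simp))
  intro j hj
  rw [mem_range] at hj
  unfold Machine.stg
  rcases hc : M.conf (inp m σ) (j * r) with c | a
  · simp only
    refine (card_union_le _ _).trans (Nat.add_le_add (card_hit _) ?_)
    refine (card_biUnion_le_card_mul _ _ k ?_).trans (by simp)
    intro d _
    by_contra hlt
    apply h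
    have hlt' := conf_lt M σ _ c hc
    refine ⟨⟨j, hj⟩, d, (c.1, fun i => ⟨c.2 i, hlt' i⟩), ?_⟩
    exact (not_le.1 hlt).le
  · simp

theorem sum_seen [Fintype Q] (M : Machine m p Q) (T r k : ℕ) (hr : 0 < r) :
    ∑ σ : Ps m ≃ Lb m, (M.seen T σ).card ≤
      (3 * (m / 3)).factorial * ((T / r + 1) * (p + 3 * k)) + (m / 3) *
        (((T / r + 1) * (3 * (Fintype.card Q * (2 * m + 5) ^ p))) *
        ((m / 3).choose k * (r ^ (2 * k) * (3 * (m / 3) - 2 * k).factorial))) := by
  classical
  have hcard : Fintype.card (Ps m ≃ Lb m) = (3 * (m / 3)).factorial := by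
    have e : Ps m ≃ Lb m := Fintype.equivOfCardEq (by simp; ring)
    rw [Fintype.card_equiv e]
    simp
  have h1 : ∀ σ : Ps m ≃ Lb m, (M.seen T σ).card ≤
      (T / r + 1) * (p + 3 * k) + (m / 3) * (if M.Bad T r k σ then 1 else 0) := by
    intro σ
    by_cases h : M.Bad T r k σ
    · simp only [h, if_true, mul_one]
      have := card_le_univ (M.seen T σ)
      rw [Fintype.card_fin] at this
      omega
    · simp only [h, if_false, mul_zero, add_zero]
      exact card_seen M T r k hr σ h
  refine (sum_le_sum (fun σ _ => h1 σ)).trans ?_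
  rw [sum_add_distrib, sum_const, card_univ, hcard, smul_eq_mul, ← mul_sum]
  refine Nat.add_le_add le_rfl (Nat.mul_le_mul_left _ ?_)
  rw [← card_filter]
  exact card_bad M T r k

open Classical in
/-- All groups are seen. -/
theorem prob_seen {Ω : Type} [Fintype Ω] (M : Ω → Machine m p Q) (w : Ω → ℝ) (hw : ∀ ω, 0 ≤ w ω)
    (hw1 : ∑ ω, w ω = 1) (T : ℕ) (hinv : ∀ ω, (M ω).Inv T) (D : ℕ)
    (hM : ∀ x : Fin m → ℕ × ℕ, IsEdgeList x → NearMatching x → ∀ b : Bool, (b = true ↔ HasTriangle x) →
      1 / 2 + 1 / (D : ℝ) ≤ ∑ ω with (M ω).Answers x T b, w ω)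
    (i : Fin (m / 3)) (σ : Ps m ≃ Lb m) :
    2 / (D : ℝ) ≤ ∑ ω, w ω * (if i ∈ (M ω).seen T σ then 1 else 0) := by
  have a1 := hM _ (inp_edgeList σ) (inp_near σ) false (by simpa using inp_noTriangle σ)
  have a2 := hM _ (trg_edgeList σ i) (trg_near σ i) true (by simpa using trg_triangle σ i)
  rw [sum_filter] at a1 a2
  have key : ∀ ω, (if (M ω).Answers (inp m σ) T false then w ω else 0) +
      (if (M ω).Answers (trg σ i) T true then w ω else 0) ≤
      w ω + w ω * (if i ∈ (M ω).seen T σ then 1 else 0) := by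
    intro ω
    have hwω := hw ω
    by_cases hs : i ∈ (M ω).seen T σ
    · simp only [hs, if_true, mul_one]
      apply add_le_add <;> split <;> linarith
    · simp only [hs, if_false, mul_zero, add_zero]
      by_cases hf : (M ω).Answers (inp m σ) T false
      · have h3 := couple_answers (M ω) T (hinv ω) (inp m σ) (col (5 + 6 * i.1)) (by simp [col]) (by
          intro t ht
          apply fine_of_not_two
          intro hh
          apply hs
          simp only [Machine.seen, mem_filter, mem_univ, true_and]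
          exact ⟨t, ht, hh⟩) false hf
        have h4 : ¬ (M ω).Answers (trg σ i) T true := by
          intro h5
          unfold Machine.Answers trg at h5
          unfold Machine.Answers at h3
          rw [h3] at h5
          simp at h5
        simp only [hf, h4, if_true, if_false]
        linarith
      · simp only [hf, if_false, zero_add]
        split <;> linarith
  have hsum := sum_le_sum (fun ω (_ : ω ∈ univ) => key ω)
  rw [sum_add_distrib, sum_add_distrib, hw1] at hsum
  have hD : 2 / (D : ℝ) = 1 / D + 1 / D := by ring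
  linarith

open Classical in
theorem main_ineq {Ω : Type} [Fintype Ω] (M : Ω → Machine m p Q) (w : Ω → ℝ) (hw : ∀ ω, 0 ≤ w ω)
    (hw1 : ∑ ω, w ω = 1) (T : ℕ) (hinv : ∀ ω, (M ω).Inv T) (D : ℕ)
    (hM : ∀ x : Fin m → ℕ × ℕ, IsEdgeList x → NearMatching x → ∀ b : Bool, (b = true ↔ HasTriangle x) →
      1 / 2 + 1 / (D : ℝ) ≤ ∑ ω with (M ω).Answers x T b, w ω)
    (hD : 0 < D) (B : ℕ) (hB : ∀ ω, ∑ σ : Ps m ≃ Lb m, ((M ω).seen T σ).card ≤ B) :
    2 * ((m / 3) * (3 * (m / 3)).factorial) ≤ D * B := by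
  have hD0 : (0 : ℝ) < D := by exact_mod_cast hD
  have hcard : Fintype.card (Ps m ≃ Lb m) = (3 * (m / 3)).factorial := by
    have e : Ps m ≃ Lb m := Fintype.equivOfCardEq (by simp; ring)
    rw [Fintype.card_equiv e]
    simp
  have h1 : ∀ i : Fin (m / 3), ((3 * (m / 3)).factorial : ℕ) * (2 / D : ℝ) ≤
      ∑ σ : Ps m ≃ Lb m, ∑ ω, w ω * (if i ∈ (M ω).seen T σ then 1 else 0) := by
    intro i
    rw [← hcard, ← card_univ, ← nsmul_eq_mul, ← sum_const]
    exact sum_le_sum (fun σ _ => prob_seen M w hw hw1 T hinv D hM i σ)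
  have h2 := sum_le_sum (fun b (_ : b ∈ (univ : Finset (Fin (m / 3)))) => h1 b)
  rw [sum_const, card_univ, Fintype.card_fin, nsmul_eq_mul] at h2
  have h3 : ∑ b : Fin (m / 3), ∑ σ : Ps m ≃ Lb m, ∑ ω, w ω * (if b ∈ (M ω).seen T σ then (1 : ℝ) else 0) =
      ∑ ω, w ω * ((∑ σ : Ps m ≃ Lb m, ((M ω).seen T σ).card : ℕ) : ℝ) := by
    have e1 : ∀ b : Fin (m / 3), ∑ σ : Ps m ≃ Lb m, ∑ ω, w ω * (if b ∈ (M ω).seen T σ then (1 : ℝ) else 0) =
        ∑ ω, ∑ σ : Ps m ≃ Lb m, w ω * (if b ∈ (M ω).seen T σ then (1 : ℝ) else 0) :=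
      fun b => sum_comm
    simp only [e1]
    rw [sum_comm]
    refine sum_congr rfl (fun ω _ => ?_)
    rw [sum_comm]
    push_cast
    rw [mul_sum]
    refine sum_congr rfl (fun σ _ => ?_)
    rw [← mul_sum]
    congr 1
    rw [sum_ite_mem, univ_inter, sum_const, nsmul_eq_mul, mul_one]
  rw [h3] at h2
  have h4 : ∑ ω, w ω * ((∑ σ : Ps m ≃ Lb m, ((M ω).seen T σ).card : ℕ) : ℝ) ≤ B := by
    calc ∑ ω, w ω * ((∑ σ : Ps m ≃ Lb m, ((M ω).seen T σ).card : ℕ) : ℝ)
        ≤ ∑ ω, w ω * (B : ℝ) := by
          apply sum_le_sum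
          intro ω _
          apply mul_le_mul_of_nonneg_left _ (hw ω)
          exact_mod_cast hB ω
      _ = B := by rw [← sum_mul, hw1, one_mul]
  have h5 : ((m / 3 : ℕ) : ℝ) * (((3 * (m / 3)).factorial : ℕ) * (2 / D : ℝ)) ≤ B := by
    linarith
  have h6 : 2 * (((m / 3 : ℕ) : ℝ) * (((3 * (m / 3)).factorial : ℕ) : ℝ)) ≤ D * (B : ℝ) := by
    calc 2 * (((m / 3 : ℕ) : ℝ) * (((3 * (m / 3)).factorial : ℕ) : ℝ))
        = D * (((m / 3 : ℕ) : ℝ) * (((3 * (m / 3)).factorial : ℕ) * (2 / D : ℝ))) := by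
          field_simp
      _ ≤ D * (B : ℝ) := mul_le_mul_of_nonneg_left h5 hD0.le
  exact_mod_cast h6

end Pool.Agent.L7h39.TM
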