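import Mathlib

/-!
# Machines with random access to a list of edges and registers for names of vertices
-/

set_option autoImplicit false

namespace Pool.Agent.L7h39.TM

/-- A machine for lists of `m` edges with `p` registers, each of which holds the name of a vertex (a natural number of
arbitrary size), and with the set `Q` of states of its other memory.

* `start` is the initial state; at the beginning all registers contain `0`.
* `act t q a R` is what the machine does at the time `t` in the state `q` if the registers contain `a 0, …, a (p - 1)`
  and `R` is the relation of adjacency between these names: it reads the edge number `e` of the list (`Sum.inl e`), or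
  stops with an answer (`Sum.inr true`: there is a triangle, `Sum.inr false`: there is none).
* `upd t q h R` is what happens after an edge has been read, where `h` are the names at hand (`Sum.inl j`: the content
  of the register `j`; `Sum.inr false` and `Sum.inr true`: the two ends of the edge) and `R` is the relation of adjacency
  between them: the new state, and for every register which one of the names at hand it gets.

Both may depend in an arbitrary way on the time, the state, the names and the relation. -/
structure Machine (m p : ℕ) (Q : Type) where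
  start : Q
  act : ℕ → Q → (Fin p → ℕ) → (Fin p → Fin p → Prop) → Fin m ⊕ Bool
  upd : ℕ → Q → (Fin p ⊕ Bool → ℕ) → (Fin p ⊕ Bool → Fin p ⊕ Bool → Prop) → Q × (Fin p → Fin p ⊕ Bool)

variable {m p : ℕ} {Q : Type}

/-- The names at hand, if the registers contain `a` and the edge with the ends `y.1`, `y.2` has been read. -/
def hand (a : Fin p → ℕ) (y : ℕ × ℕ) : Fin p ⊕ Bool → ℕ
  | Sum.inl j => a j
  | Sum.inr false => y.1
  | Sum.inr true => y.2

/-- What the machine does at the time `t` in the configuration `c` (state and contents of the registers), if `G` is the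
relation of adjacency. -/
def Machine.ask (M : Machine m p Q) (G : ℕ → ℕ → Prop) (t : ℕ) (c : Q × (Fin p → ℕ)) : Fin m ⊕ Bool :=
  M.act t c.1 c.2 (fun i j => G (c.2 i) (c.2 j))

/-- The configuration after the edge with the ends `y.1`, `y.2` has been read. -/
def Machine.after (M : Machine m p Q) (G : ℕ → ℕ → Prop) (t : ℕ) (c : Q × (Fin p → ℕ)) (y : ℕ × ℕ) :
    Q × (Fin p → ℕ) :=
  ((M.upd t c.1 (hand c.2 y) (fun i j => G (hand c.2 y i) (hand c.2 y j))).1,
    fun k => hand c.2 y ((M.upd t c.1 (hand c.2 y) (fun i j => G (hand c.2 y i) (hand c.2 y j))).2 k))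

/-- The vertices `a` and `b` are adjacent. -/
def Adj (x : Fin m → ℕ × ℕ) (a b : ℕ) : Prop := ∃ e, x e = (a, b) ∨ x e = (b, a)

/-- One step of the machine `M` on the list `x` at the time `t`, from a configuration or an answer which has been given
before. -/
def Machine.next (M : Machine m p Q) (x : Fin m → ℕ × ℕ) (t : ℕ) :
    (Q × (Fin p → ℕ)) ⊕ Bool → (Q × (Fin p → ℕ)) ⊕ Bool
  | Sum.inr b => Sum.inr b
  | Sum.inl c =>
    match M.ask (Adj x) t c with
    | Sum.inr b => Sum.inr b
    | Sum.inl e => Sum.inl (M.after (Adj x) t c (x e))

/-- The configuration after `t` steps on the list `x`. -/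
def Machine.conf (M : Machine m p Q) (x : Fin m → ℕ × ℕ) : ℕ → (Q × (Fin p → ℕ)) ⊕ Bool
  | 0 => Sum.inl (M.start, fun _ => 0)
  | t + 1 => M.next x t (M.conf x t)

/-- The machine gives the answer `b` for the list `x`, after having read at most `T` edges. -/
def Machine.Answers (M : Machine m p Q) (x : Fin m → ℕ × ℕ) (T : ℕ) (b : Bool) : Prop :=
  M.conf x (T + 1) = Sum.inr b

/-- `x` is the list of the edges of a simple graph, each edge once: the two ends of an edge are different, and different
entries of the list are different edges. -/
def IsEdgeList (x : Fin m → ℕ × ℕ) : Prop :=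
  (∀ e, (x e).1 ≠ (x e).2) ∧ ∀ e f, e ≠ f → x e ≠ x f ∧ x e ≠ ((x f).2, (x f).1)

/-- At most three of the edges have an end in common with another edge. -/
def NearMatching (x : Fin m → ℕ × ℕ) : Prop :=
  ∃ A : Finset (Fin m), A.card ≤ 3 ∧ ∀ e, e ∉ A → ∀ f, f ≠ e →
    (x e).1 ≠ (x f).1 ∧ (x e).1 ≠ (x f).2 ∧ (x e).2 ≠ (x f).1 ∧ (x e).2 ≠ (x f).2

/-- There are three pairwise adjacent vertices. -/
def HasTriangle (x : Fin m → ℕ × ℕ) : Prop := ∃ a b c, Adj x a b ∧ Adj x b c ∧ Adj x a c

end Pool.Agent.L7h39.TM
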