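import Pool.Agent.L7h39.TM.Defs

/-!
# The lists of edges: a matching, or a matching and a triangle
-/

set_option autoImplicit false

namespace Pool.Agent.L7h39.TM

variable {m p : ℕ} {Q : Type}

/-- The labels of the edges: the number of the group and the number in the group. -/
abbrev Lb (m : ℕ) : Type := Fin (m / 3) × Fin 3

/-- The positions of these edges. -/
abbrev Ps (m : ℕ) : Type := Fin (3 * (m / 3))

/-- The edge with a label. -/
def edg (w : Lb m) : ℕ × ℕ := (5 + 6 * w.1.1 + w.2.1, 5 + 6 * w.1.1 + w.2.1 + 3)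

/-- The list of the edges, where `σ` gives their order; there are at most two further edges at the end. -/
def inp (m : ℕ) (σ : Ps m → Lb m) : Fin m → ℕ × ℕ := fun e =>
  if h : e.1 < 3 * (m / 3) then edg (σ ⟨e.1, h⟩)
  else (1 + 2 * (e.1 - 3 * (m / 3)), 2 + 2 * (e.1 - 3 * (m / 3)))

theorem inp_cases (σ : Ps m → Lb m) (e : Fin m) :
    (∃ v : Ps m, e.1 = v.1 ∧ inp m σ e = edg (σ v)) ∨
    (∃ d, d < m % 3 ∧ e.1 = 3 * (m / 3) + d ∧ inp m σ e = (1 + 2 * d, 2 + 2 * d)) := by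
  unfold inp
  by_cases h : e.1 < 3 * (m / 3)
  · left
    exact ⟨⟨e.1, h⟩, rfl, by simp [h]⟩
  · right
    have := e.2
    exact ⟨e.1 - 3 * (m / 3), by omega, by omega, by simp [h]⟩

/-- The position in the list. -/
def pos (v : Ps m) : Fin m := ⟨v.1, by have := v.2; omega⟩

theorem inp_pos (σ : Ps m → Lb m) (v : Ps m) : inp m σ (pos v) = edg (σ v) := by
  unfold inp pos
  have := v.2
  simp

/-- The graph, for every order of the edges. -/
def G0 (m : ℕ) (a b : ℕ) : Prop :=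
  (∃ w : Lb m, edg w = (a, b) ∨ edg w = (b, a)) ∨
    (∃ d < m % 3, (1 + 2 * d, 2 + 2 * d) = (a, b) ∨ (1 + 2 * d, 2 + 2 * d) = (b, a))

theorem adj_inp (σ : Ps m ≃ Lb m) : Adj (inp m σ) = G0 m := by
  funext a b
  apply propext
  constructor
  · rintro ⟨e, he⟩
    rcases inp_cases σ e with ⟨v, _, hv⟩ | ⟨d, hd, _, hv⟩
    · rw [hv] at he; exact Or.inl ⟨σ v, he⟩
    · rw [hv] at he; exact Or.inr ⟨d, hd, he⟩
  · rintro (⟨w, hw⟩ | ⟨d, hd, h⟩)
    · refine ⟨pos (σ.symm w), ?_⟩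
      rw [inp_pos, Equiv.apply_symm_apply]; exact hw
    · refine ⟨⟨3 * (m / 3) + d, by omega⟩, ?_⟩
      unfold inp
      have : ¬ 3 * (m / 3) + d < 3 * (m / 3) := by omega
      simp only [this, dif_neg, not_false_eq_true, Nat.add_sub_cancel_left]
      exact h

/-- Different edges have no common ends. -/
def Disj (x : Fin m → ℕ × ℕ) (e f : Fin m) : Prop :=
  (x e).1 ≠ (x f).1 ∧ (x e).1 ≠ (x f).2 ∧ (x e).2 ≠ (x f).1 ∧ (x e).2 ≠ (x f).2

theorem edg_disj {w w' : Lb m} (h : w ≠ w') :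
    (edg w).1 ≠ (edg w').1 ∧ (edg w).1 ≠ (edg w').2 ∧ (edg w).2 ≠ (edg w').1 ∧ (edg w).2 ≠ (edg w').2 := by
  have h1 : ¬ (w.1.1 = w'.1.1 ∧ w.2.1 = w'.2.1) := fun h' => h (Prod.ext (Fin.ext h'.1) (Fin.ext h'.2))
  have h2 := w.2.2
  have h3 := w'.2.2
  unfold edg
  simp only
  omega

theorem inp_disj (σ : Ps m ≃ Lb m) {e f : Fin m} (hef : e ≠ f) : Disj (inp m σ) e f := by
  have hne : e.1 ≠ f.1 := fun h => hef (Fin.ext h)
  unfold Disj
  rcases inp_cases σ e with ⟨v, hev, he⟩ | ⟨d, hd, hev, he⟩ <;>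
    rcases inp_cases σ f with ⟨v', hfv, hf⟩ | ⟨d', hd', hfv, hf⟩ <;> rw [he, hf]
  · apply edg_disj
    intro h
    have := σ.injective h
    apply hne
    rw [hev, hfv, this]
  · have h2 : (d' : ℕ) < 2 := by omega
    unfold edg
    simp only
    omega
  · have h2 : (d : ℕ) < 2 := by omega
    unfold edg
    simp only
    omega
  · simp only
    omega

theorem inp_ne (σ : Ps m → Lb m) (e : Fin m) : (inp m σ e).1 ≠ (inp m σ e).2 := by
  rcases inp_cases σ e with ⟨v, _, he⟩ | ⟨d, _, _, he⟩ <;> rw [he]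
  · unfold edg; simp only; omega
  · simp only; omega

theorem inp_edgeList (σ : Ps m ≃ Lb m) : IsEdgeList (inp m σ) := by
  refine ⟨inp_ne σ, fun e f hef => ?_⟩
  have h := inp_disj σ hef
  exact ⟨fun h' => h.1 (congrArg Prod.fst h'), fun h' => h.2.1 (congrArg Prod.fst h')⟩

theorem inp_near (σ : Ps m ≃ Lb m) : NearMatching (inp m σ) :=
  ⟨∅, by simp, fun _ _ _ hf => inp_disj σ (Ne.symm hf)⟩

theorem inp_noTriangle (σ : Ps m ≃ Lb m) : ¬ HasTriangle (inp m σ) := by
  rintro ⟨a, b, c, ⟨e, he⟩, ⟨f, hf⟩, ⟨g, hg⟩⟩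
  have hef : e = f := by
    by_contra h
    have h1 := inp_disj σ h
    unfold Disj at h1
    rcases he with he | he <;> rcases hf with hf | hf <;> rw [he, hf] at h1 <;> simp at h1
  rw [hef] at he
  have hac : a = c := by
    rcases he with he | he <;> rcases hf with hf | hf <;> rw [he] at hf <;> simp only [Prod.mk.injEq] at hf <;>
      omega
  have h2 := inp_ne σ g
  rcases hg with hg | hg <;> rw [hg, hac] at h2 <;> simp at h2

/-- The list with other names. -/
def mapI (H : ℕ → ℕ) (x : Fin m → ℕ × ℕ) : Fin m → ℕ × ℕ := fun e => (H (x e).1, H (x e).2)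

/-- The three pairs of neighbouring names of a group are identified. -/
def col (z : ℕ) (y : ℕ) : ℕ := if y = z + 1 ∨ y = z + 3 ∨ y = z + 5 then y - 1 else y

/-- The list with a triangle. -/
def trg (σ : Ps m ≃ Lb m) (i : Fin (m / 3)) : Fin m → ℕ × ℕ := mapI (col (5 + 6 * i.1)) (inp m σ)

theorem trg_ne (σ : Ps m ≃ Lb m) (i : Fin (m / 3)) (e : Fin m) : (trg σ i e).1 ≠ (trg σ i e).2 := by
  unfold trg mapI
  simp only
  rcases inp_cases σ e with ⟨v, _, he⟩ | ⟨d, hd, _, he⟩ <;> rw [he]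
  · have h3 := (σ v).2.2
    unfold edg col
    simp only
    split <;> split <;> omega
  · unfold col
    simp only
    split <;> split <;> omega

theorem col_disj {z a b : ℕ} (h : a ≠ b) (ha : a < z ∨ z + 6 ≤ a) : col z a ≠ col z b := by
  unfold col; split <;> split <;> omega

theorem trg_disj (σ : Ps m ≃ Lb m) (i : Fin (m / 3)) {e f : Fin m} (hef : e ≠ f)
    (h : ¬ ∃ k : Fin 3, e = pos (σ.symm (i, k))) : Disj (trg σ i) e f := by
  have h1 := inp_disj σ hef
  have h2 : ∀ y, y = (inp m σ e).1 ∨ y = (inp m σ e).2 → y < 5 + 6 * i.1 ∨ 5 + 6 * i.1 + 6 ≤ y := by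
    intro y hy
    rcases inp_cases σ e with ⟨v, hev, he⟩ | ⟨d, hd, _, he⟩ <;> rw [he] at hy
    · have h3 : (σ v).1 ≠ i := by
        intro h3
        apply h
        refine ⟨(σ v).2, ?_⟩
        rw [← h3]
        apply Fin.ext
        simp [pos, hev]
      have h4 : (σ v).1.1 ≠ i.1 := fun h' => h3 (Fin.ext h')
      have h5 := (σ v).2.2
      unfold edg at hy
      simp only at hy
      omega
    · simp only at hy
      omega
  have a1 := h2 _ (Or.inl rfl)
  have a2 := h2 _ (Or.inr rfl)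
  exact ⟨col_disj h1.1 a1, col_disj h1.2.1 a1, col_disj h1.2.2.1 a2, col_disj h1.2.2.2 a2⟩

theorem trg_edgeList (σ : Ps m ≃ Lb m) (i : Fin (m / 3)) : IsEdgeList (trg σ i) := by
  refine ⟨trg_ne σ i, fun e f hef => ?_⟩
  by_cases he : ∃ k : Fin 3, e = pos (σ.symm (i, k))
  · by_cases hf : ∃ k : Fin 3, f = pos (σ.symm (i, k))
    · obtain ⟨k, hk⟩ := he
      obtain ⟨l, hl⟩ := hf
      have hkl : k.1 ≠ l.1 := fun h => hef (by rw [hk, hl, Fin.ext h])
      have h1 := k.2
      have h2 := l.2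
      have h3 : inp m σ e = edg (i, k) := by rw [hk, inp_pos, Equiv.apply_symm_apply]
      have h4 : inp m σ f = edg (i, l) := by rw [hl, inp_pos, Equiv.apply_symm_apply]
      unfold trg mapI
      rw [h3, h4]
      unfold edg col
      simp only [ne_eq, Prod.mk.injEq]
      constructor <;> split <;> split <;> split <;> split <;> omega
    · have h := trg_disj σ i (Ne.symm hef) hf
      exact ⟨fun h' => h.1 (congrArg Prod.fst h').symm, fun h' => h.2.2.1 (congrArg Prod.fst h').symm⟩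
  · have h := trg_disj σ i hef he
    exact ⟨fun h' => h.1 (congrArg Prod.fst h'), fun h' => h.2.1 (congrArg Prod.fst h')⟩

theorem trg_near (σ : Ps m ≃ Lb m) (i : Fin (m / 3)) : NearMatching (trg σ i) := by
  classical
  refine ⟨Finset.univ.image (fun k : Fin 3 => pos (σ.symm (i, k))), ?_, ?_⟩
  · exact Finset.card_image_le.trans (by simp)
  · intro e he f hf
    refine trg_disj σ i (Ne.symm hf) ?_
    rintro ⟨k, hk⟩
    exact he (Finset.mem_image.2 ⟨k, Finset.mem_univ _, hk.symm⟩)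

theorem trg_triangle (σ : Ps m ≃ Lb m) (i : Fin (m / 3)) : HasTriangle (trg σ i) := by
  have h : ∀ k : Fin 3, trg σ i (pos (σ.symm (i, k))) =
      (col (5 + 6 * i.1) (5 + 6 * i.1 + k.1), col (5 + 6 * i.1) (5 + 6 * i.1 + k.1 + 3)) := by
    intro k
    unfold trg mapI
    rw [inp_pos, Equiv.apply_symm_apply]
    rfl
  refine ⟨5 + 6 * i.1, 5 + 6 * i.1 + 2, 5 + 6 * i.1 + 4, ⟨pos (σ.symm (i, 0)), Or.inl ?_⟩,
    ⟨pos (σ.symm (i, 2)), Or.inl ?_⟩, ⟨pos (σ.symm (i, 1)), Or.inl ?_⟩⟩ <;> rw [h] <;> simp [col]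

/-! ### Changing names -/

theorem mapI_edgeList {H : ℕ → ℕ} (hH : Function.Injective H) {x : Fin m → ℕ × ℕ} (hx : IsEdgeList x) :
    IsEdgeList (mapI H x) := by
  refine ⟨fun e h => hx.1 e (hH h), fun e f hef => ⟨fun h => (hx.2 e f hef).1 ?_, fun h => (hx.2 e f hef).2 ?_⟩⟩
  · simp only [mapI, Prod.mk.injEq] at h
    exact Prod.ext (hH h.1) (hH h.2)
  · simp only [mapI, Prod.mk.injEq] at h
    exact Prod.ext (hH h.1) (hH h.2)

theorem mapI_near {H : ℕ → ℕ} (hH : Function.Injective H) {x : Fin m → ℕ × ℕ} (hx : NearMatching x) :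
    NearMatching (mapI H x) := by
  obtain ⟨A, hA, h⟩ := hx
  refine ⟨A, hA, fun e he f hf => ?_⟩
  have := h e he f hf
  exact ⟨fun h' => this.1 (hH h'), fun h' => this.2.1 (hH h'), fun h' => this.2.2.1 (hH h'),
    fun h' => this.2.2.2 (hH h')⟩

theorem mapI_adj {H : ℕ → ℕ} (hH : Function.Injective H) (x : Fin m → ℕ × ℕ) (a b : ℕ) :
    Adj (mapI H x) (H a) (H b) ↔ Adj x a b := by
  constructor
  · rintro ⟨e, he⟩
    refine ⟨e, ?_⟩
    simp only [mapI, Prod.mk.injEq] at he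
    rcases he with he | he
    · exact Or.inl (Prod.ext (hH he.1) (hH he.2))
    · exact Or.inr (Prod.ext (hH he.1) (hH he.2))
  · rintro ⟨e, he⟩
    refine ⟨e, ?_⟩
    unfold mapI
    rcases he with he | he <;> rw [he] <;> simp

theorem adj_map {H : ℕ → ℕ} {x : Fin m → ℕ × ℕ} {a b : ℕ} (h : Adj (mapI H x) a b) :
    ∃ a' b', a = H a' ∧ b = H b' ∧ Adj x a' b' := by
  obtain ⟨e, he⟩ := h
  simp only [mapI, Prod.mk.injEq] at he
  rcases he with ⟨rfl, rfl⟩ | ⟨rfl, rfl⟩
  · exact ⟨_, _, rfl, rfl, e, Or.inl rfl⟩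
  · exact ⟨_, _, rfl, rfl, e, Or.inr rfl⟩

theorem mapI_triangle {H : ℕ → ℕ} (hH : Function.Injective H) {x : Fin m → ℕ × ℕ} :
    HasTriangle (mapI H x) ↔ HasTriangle x := by
  constructor
  · rintro ⟨a, b, c, h1, h2, h3⟩
    obtain ⟨a1, b1, ha1, hb1, k1⟩ := adj_map h1
    obtain ⟨b2, c2, hb2, hc2, k2⟩ := adj_map h2
    obtain ⟨a3, c3, ha3, hc3, k3⟩ := adj_map h3
    have e1 : b1 = b2 := hH (hb1.symm.trans hb2)
    have e2 : a1 = a3 := hH (ha1.symm.trans ha3)
    have e3 : c2 = c3 := hH (hc2.symm.trans hc3)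
    subst e1 e2 e3
    exact ⟨a1, b1, c2, k1, k2, k3⟩
  · rintro ⟨a, b, c, h1, h2, h3⟩
    exact ⟨H a, H b, H c, (mapI_adj hH x _ _).2 h1, (mapI_adj hH x _ _).2 h2, (mapI_adj hH x _ _).2 h3⟩

/-- The machine which computes with the indices of the names. -/
def Machine.pull (M : Machine m p Q) (H : ℕ → ℕ) : Machine m p Q where
  start := M.start
  act t q a R := M.act t q (fun i => H (a i)) R
  upd t q h R := M.upd t q (fun i => H (h i)) R

theorem hand_map (H : ℕ → ℕ) (a : Fin p → ℕ) (y : ℕ × ℕ) (i : Fin p ⊕ Bool) :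
    hand (fun i => H (a i)) (H y.1, H y.2) i = H (hand a y i) := by
  rcases i with j | (_ | _) <;> rfl

theorem conf_pull (M : Machine m p Q) {H : ℕ → ℕ} (hH : Function.Injective H) (h0 : H 0 = 0)
    (x : Fin m → ℕ × ℕ) (t : ℕ) :
    M.conf (mapI H x) t = Sum.map (fun c => (c.1, fun i => H (c.2 i))) id ((M.pull H).conf x t) := by
  induction t with
  | zero => simp [Machine.conf, Machine.pull, h0]
  | succ t ih =>
    rw [Machine.conf, Machine.conf, ih]
    rcases (M.pull H).conf x t with c | b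
    · simp only [Sum.map_inl, Machine.next]
      have h1 : M.ask (Adj (mapI H x)) t (c.1, fun i => H (c.2 i)) = (M.pull H).ask (Adj x) t c := by
        simp only [Machine.ask, Machine.pull, mapI_adj hH]
      rw [h1]
      rcases (M.pull H).ask (Adj x) t c with e | b
      · simp only [Sum.map_inl, mapI]
        congr 1
        simp only [Machine.after, Machine.pull]
        have h2 : hand (fun i => H (c.2 i)) (H (x e).1, H (x e).2) = fun i => H (hand c.2 (x e) i) :=
          funext (hand_map H c.2 (x e))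
        simp only [h2, mapI_adj hH]
      · simp
    · simp [Machine.next]

theorem answers_pull (M : Machine m p Q) {H : ℕ → ℕ} (hH : Function.Injective H) (h0 : H 0 = 0)
    (x : Fin m → ℕ × ℕ) (T : ℕ) (b : Bool) :
    M.Answers (mapI H x) T b ↔ (M.pull H).Answers x T b := by
  unfold Machine.Answers
  rw [conf_pull M hH h0]
  rcases (M.pull H).conf x (T + 1) with c | b' <;> simp

end Pool.Agent.L7h39.TM
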