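import Pool.Agent.L7h39.TM.Inp
import Pool.Agent.L7h39.TN.Ram
import Pool.Agent.L7h39.TN.DT

/-!
# Order invariant machines: the coupling of two inputs, and the stages of a run
-/

set_option autoImplicit false

namespace Pool.Agent.L7h39.TM

open Finset Pool.Agent.L7h39.TN

variable {m p : ℕ} {Q : Type}

/-- Up to the time `T` only the order of the names matters. -/
def Machine.Inv (M : Machine m p Q) (T : ℕ) : Prop :=
  ∀ t ≤ T, ∀ (q : Q) (g : ℕ → ℕ), g 0 = 0 →
    (∀ (a : Fin p → ℕ) R, StrictMonoOn g (insert 0 (Set.range a)) →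
      M.act t q (fun i => g (a i)) R = M.act t q a R) ∧
    ∀ (h : Fin p ⊕ Bool → ℕ) R, StrictMonoOn g (insert 0 (Set.range h)) →
      M.upd t q (fun i => g (h i)) R = M.upd t q h R

theorem exists_pull_inv {Ω : Type} [Finite Ω] [Finite Q] (M : Ω → Machine m p Q) (T : ℕ) :
    ∃ H : ℕ → ℕ, StrictMono H ∧ H 0 = 0 ∧ ∀ ω, ((M ω).pull H).Inv T := by
  obtain ⟨H, hH, hH0, h⟩ := exists_invariant (ι := Fin p ⊕ Bool)
    (R := Ω × Fin (T + 1) × Q × (Fin p → Fin p → Prop) × (Fin p ⊕ Bool → Fin p ⊕ Bool → Prop))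
    (C := (Fin m ⊕ Bool) × (Q × (Fin p → Fin p ⊕ Bool)))
    (fun r f => ((M r.1).act r.2.1.1 r.2.2.1 (fun i => f (Sum.inl i)) r.2.2.2.1,
      (M r.1).upd r.2.1.1 r.2.2.1 f r.2.2.2.2))
  refine ⟨H, hH, hH0, fun ω t ht q g hg0 => ⟨fun a R hg => ?_, fun hd R hg => ?_⟩⟩
  · have h1 := h (ω, ⟨t, by omega⟩, q, R, fun _ _ => True) (Sum.elim a (fun _ => 0)) g hg0 (by
      apply hg.mono
      rintro z (rfl | ⟨i | i, rfl⟩)
      · exact Set.mem_insert _ _
      · exact Set.mem_insert_of_mem _ ⟨i, rfl⟩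
      · exact Set.mem_insert _ _)
    exact congrArg Prod.fst h1
  · have h1 := h (ω, ⟨t, by omega⟩, q, (fun _ _ => True), R) hd g hg0 hg
    exact congrArg Prod.snd h1

/-- The names which are at hand at the time `t` in a configuration. -/
def Machine.exam (M : Machine m p Q) (x : Fin m → ℕ × ℕ) (t : ℕ) : (Q × (Fin p → ℕ)) ⊕ Bool → Set ℕ
  | Sum.inr _ => ∅
  | Sum.inl c => Set.range c.2 ∪
      (match M.ask (Adj x) t c with
        | Sum.inl e => {(x e).1, (x e).2}
        | Sum.inr _ => ∅)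

/-- The renaming `g` keeps order and adjacency in the set `A`. -/
def Fine (x : Fin m → ℕ × ℕ) (g : ℕ → ℕ) (A : Set ℕ) : Prop :=
  StrictMonoOn g (insert 0 A) ∧ ∀ u ∈ A, ∀ v ∈ A, (Adj (mapI g x) (g u) (g v) ↔ Adj x u v)

theorem hand_mem (a : Fin p → ℕ) (y : ℕ × ℕ) (i : Fin p ⊕ Bool) :
    hand a y i ∈ Set.range a ∪ {y.1, y.2} := by
  rcases i with j | (_ | _)
  · exact Or.inl ⟨j, rfl⟩
  · exact Or.inr (Or.inl rfl)
  · exact Or.inr (Or.inr rfl)

theorem couple (M : Machine m p Q) (T : ℕ) (hM : M.Inv T) (x : Fin m → ℕ × ℕ) (g : ℕ → ℕ) (hg0 : g 0 = 0)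
    (hns : ∀ t ≤ T, Fine x g (M.exam x t (M.conf x t))) :
    ∀ t ≤ T + 1, M.conf (mapI g x) t = Sum.map (fun c => (c.1, fun i => g (c.2 i))) id (M.conf x t) := by
  intro t
  induction t with
  | zero => intro _; simp [Machine.conf, hg0]
  | succ t ih =>
    intro ht
    have ht' : t ≤ T := by omega
    have hn := hns t ht'
    rw [Machine.conf, Machine.conf, ih (by omega)]
    rcases hc : M.conf x t with c | b
    · rw [hc] at hn
      simp only [Machine.exam] at hn
      have h1 : M.ask (Adj (mapI g x)) t (c.1, fun i => g (c.2 i)) = M.ask (Adj x) t c := by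
        simp only [Machine.ask]
        rw [(hM t ht' c.1 g hg0).1 c.2 _ (hn.1.mono (Set.insert_subset_insert Set.subset_union_left))]
        congr 1
        funext i j
        exact propext (hn.2 _ (Or.inl ⟨i, rfl⟩) _ (Or.inl ⟨j, rfl⟩))
      simp only [Sum.map_inl, Machine.next, h1]
      rcases he : M.ask (Adj x) t c with e | b
      · rw [he] at hn
        simp only [Sum.map_inl]
        congr 1
        have h3 : hand (fun i => g (c.2 i)) (mapI g x e) = fun i => g (hand c.2 (x e) i) :=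
          funext (hand_map g c.2 (x e))
        have h4 : (fun i j => Adj (mapI g x) (g (hand c.2 (x e) i)) (g (hand c.2 (x e) j))) =
            fun i j => Adj x (hand c.2 (x e) i) (hand c.2 (x e) j) := by
          funext i j
          exact propext (hn.2 _ (hand_mem _ _ _) _ (hand_mem _ _ _))
        have h5 := (hM t ht' c.1 g hg0).2 (hand c.2 (x e)) (fun i j => Adj x (hand c.2 (x e) i) (hand c.2 (x e) j))
          (hn.1.mono (Set.insert_subset_insert (by rintro _ ⟨i, rfl⟩; exact hand_mem _ _ _)))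
        simp only [Machine.after]
        rw [h3]
        simp only [h4, h5]
      · simp
    · simp [Machine.next]

theorem couple_answers (M : Machine m p Q) (T : ℕ) (hM : M.Inv T) (x : Fin m → ℕ × ℕ) (g : ℕ → ℕ) (hg0 : g 0 = 0)
    (hns : ∀ t ≤ T, Fine x g (M.exam x t (M.conf x t))) (b : Bool)
    (h : M.Answers x T b) : M.Answers (mapI g x) T b := by
  unfold Machine.Answers at h ⊢
  rw [couple M T hM x g hg0 hns (T + 1) le_rfl, h]
  simp

/-- Two names from different edges of a group. -/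
def Two (z : ℕ) (A : Set ℕ) : Prop :=
  ∃ u ∈ A, ∃ v ∈ A, z ≤ u ∧ u < z + 6 ∧ z ≤ v ∧ v < z + 6 ∧ (u - z) % 3 ≠ (v - z) % 3

theorem fine_of_not_two (σ : Ps m ≃ Lb m) (i : Fin (m / 3)) (A : Set ℕ) (h : ¬ Two (5 + 6 * i.1) A) :
    Fine (inp m σ) (col (5 + 6 * i.1)) A := by
  have key : ∀ u ∈ A, ∀ v ∈ A, ¬ (5 + 6 * i.1 ≤ u ∧ u < 5 + 6 * i.1 + 6 ∧ 5 + 6 * i.1 ≤ v ∧ v < 5 + 6 * i.1 + 6 ∧
      (u - (5 + 6 * i.1)) % 3 ≠ (v - (5 + 6 * i.1)) % 3) := by
    intro u hu v hv hh
    exact h ⟨u, hu, v, hv, hh⟩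
  constructor
  · rintro y hy y' hy' hlt
    unfold col
    rcases hy with rfl | hy
    · split <;> split <;> omega
    · rcases hy' with rfl | hy'
      · omega
      · have := key y hy y' hy'
        split <;> split <;> omega
  · intro u hu v hv
    constructor
    · intro hadj
      have hk := key u hu v hv
      rw [adj_inp]
      have h2 : ∃ a b, col (5 + 6 * i.1) u = col (5 + 6 * i.1) a ∧ col (5 + 6 * i.1) v = col (5 + 6 * i.1) b ∧
          Adj (inp m σ) a b := adj_map hadj
      obtain ⟨a, b, ha, hb, hab⟩ := h2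
      have hne : col (5 + 6 * i.1) u ≠ col (5 + 6 * i.1) v := by
        have h3 := trg_ne σ i
        obtain ⟨e, he⟩ := hadj
        have h4 := h3 e
        unfold trg at h4
        rcases he with he | he <;> rw [he] at h4
        · exact h4
        · exact Ne.symm h4
      have hab' := hab
      rw [adj_inp] at hab'
      -- the names `a` and `b`
      by_cases hin : 5 + 6 * i.1 ≤ a ∧ a < 5 + 6 * i.1 + 6 ∧ 5 + 6 * i.1 ≤ b ∧ b < 5 + 6 * i.1 + 6
      · have hu1 : 5 + 6 * i.1 ≤ u ∧ u < 5 + 6 * i.1 + 6 := by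
          unfold col at ha; split at ha <;> split at ha <;> omega
        have hv1 : 5 + 6 * i.1 ≤ v ∧ v < 5 + 6 * i.1 + 6 := by
          unfold col at hb; split at hb <;> split at hb <;> omega
        have huv : u ≠ v := fun h => hne (by rw [h])
        have hc : (u - (5 + 6 * i.1)) % 3 = (v - (5 + 6 * i.1)) % 3 := by
          by_contra hcc
          exact hk ⟨hu1.1, hu1.2, hv1.1, hv1.2, hcc⟩
        left
        refine ⟨(i, ⟨(u - (5 + 6 * i.1)) % 3, Nat.mod_lt _ (by norm_num)⟩), ?_⟩
        unfold edg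
        simp only [Prod.mk.injEq]
        omega
      · have hout : (a < 5 + 6 * i.1 ∨ 5 + 6 * i.1 + 6 ≤ a) ∧ (b < 5 + 6 * i.1 ∨ 5 + 6 * i.1 + 6 ≤ b) := by
          rcases hab' with ⟨w, hw⟩ | ⟨d, hd, hw⟩
          · have h5 := w.2.2
            unfold edg at hw
            simp only [Prod.mk.injEq] at hw
            omega
          · simp only [Prod.mk.injEq] at hw
            omega
        have hua : u = a := by
          by_contra hne'
          exact col_disj (Ne.symm hne') hout.1 ha.symm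
        have hvb : v = b := by
          by_contra hne'
          exact col_disj (Ne.symm hne') hout.2 hb.symm
        rw [hua, hvb]; exact hab'
    · rintro ⟨e, he⟩
      refine ⟨e, ?_⟩
      unfold mapI
      rcases he with he | he <;> rw [he] <;> simp

/-! ### Stages -/

theorem inp_lt (σ : Ps m → Lb m) (e : Fin m) : (inp m σ e).1 < 2 * m + 5 ∧ (inp m σ e).2 < 2 * m + 5 := by
  rcases inp_cases σ e with ⟨v, _, he⟩ | ⟨d, hd, _, he⟩ <;> rw [he]
  · have h1 := (σ v).1.2
    have h2 := (σ v).2.2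
    unfold edg
    simp only
    omega
  · simp only
    omega

/-- Read an edge. -/
def rdE (e : Fin m) (k : ℕ × ℕ → DT (Ps m) (Lb m)) : DT (Ps m) (Lb m) :=
  if h : e.1 < 3 * (m / 3) then DT.node ⟨e.1, h⟩ (fun w => k (edg w))
  else k (1 + 2 * (e.1 - 3 * (m / 3)), 2 + 2 * (e.1 - 3 * (m / 3)))

theorem dle_rdE (e : Fin m) (k : ℕ × ℕ → DT (Ps m) (Lb m)) (n : ℕ) (hk : ∀ y, DLe n (k y)) :
    DLe (n + 1) (rdE e k) := by
  unfold rdE
  split
  · exact fun w => hk _
  · exact dle_succ (hk _)

theorem touched_rdE (e : Fin m) (k : ℕ × ℕ → DT (Ps m) (Lb m)) (σ : Ps m ≃ Lb m) :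
    touched (k (inp m σ e)) σ ⊆ touched (rdE e k) σ ∧
    ∀ z, z = (inp m σ e).1 ∨ z = (inp m σ e).2 →
      z < 5 ∨ ∃ v ∈ touched (rdE e k) σ, z = (edg (σ v)).1 ∨ z = (edg (σ v)).2 := by
  unfold rdE inp
  split
  · refine ⟨by simp only [touched]; exact subset_insert _ _, ?_⟩
    intro z hz
    right; exact ⟨_, by simp only [touched]; exact mem_insert_self _ _, hz⟩
  · refine ⟨Subset.refl _, ?_⟩
    intro z hz
    have := e.2
    simp only at hz
    left; omega

/-- The positions which are read in `r` steps. -/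
def Machine.stage (M : Machine m p Q) : ℕ → ℕ → (Q × (Fin p → ℕ)) → DT (Ps m) (Lb m)
  | 0, _, _ => DT.leaf
  | r + 1, t, c =>
    match M.ask (G0 m) t c with
    | Sum.inr _ => DT.leaf
    | Sum.inl e => rdE e (fun y => M.stage r (t + 1) (M.after (G0 m) t c y))

theorem dle_stage (M : Machine m p Q) (r : ℕ) : ∀ t c, DLe r (M.stage r t c) := by
  induction r with
  | zero => intro t c; simp [Machine.stage, DLe]
  | succ r ih =>
    intro t c
    rw [Machine.stage]
    rcases M.ask (G0 m) t c with e | b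
    · exact dle_rdE e _ r (fun y => ih _ _)
    · simp [DLe]

/-- `j` steps from the time `t`. -/
def Machine.run (M : Machine m p Q) (x : Fin m → ℕ × ℕ) : ℕ → ℕ → (Q × (Fin p → ℕ)) ⊕ Bool →
    (Q × (Fin p → ℕ)) ⊕ Bool
  | _, 0, c => c
  | t, j + 1, c => M.run x (t + 1) j (M.next x t c)

theorem run_conf (M : Machine m p Q) (x : Fin m → ℕ × ℕ) (j : ℕ) :
    ∀ t, M.run x t j (M.conf x t) = M.conf x (t + j) := by
  induction j with
  | zero => intro t; rfl
  | succ j ih =>
    intro t
    rw [Machine.run, show M.next x t (M.conf x t) = M.conf x (t + 1) from rfl, ih (t + 1)]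
    congr 1; omega

theorem run_inr (M : Machine m p Q) (x : Fin m → ℕ × ℕ) (b : Bool) (j : ℕ) :
    ∀ t, M.run x t j (Sum.inr b) = Sum.inr b := by
  induction j with
  | zero => intro t; rfl
  | succ j ih => intro t; rw [Machine.run]; exact ih _

theorem after_range (M : Machine m p Q) (G : ℕ → ℕ → Prop) (t : ℕ) (c : Q × (Fin p → ℕ)) (y : ℕ × ℕ) (z : ℕ)
    (h : z ∈ Set.range (M.after G t c y).2) : z ∈ Set.range c.2 ∨ z = y.1 ∨ z = y.2 := by
  obtain ⟨k, rfl⟩ := h
  simp only [Machine.after]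
  exact hand_mem _ _ _

theorem stage_spec (M : Machine m p Q) (σ : Ps m ≃ Lb m) (r : ℕ) :
    ∀ t (c : Q × (Fin p → ℕ)) j, j < r → ∀ z,
      z ∈ M.exam (inp m σ) (t + j) (M.run (inp m σ) t j (Sum.inl c)) →
      z < 5 ∨ z ∈ Set.range c.2 ∨ ∃ v ∈ touched (M.stage r t c) σ, z = (edg (σ v)).1 ∨ z = (edg (σ v)).2 := by
  induction r with
  | zero => intro t c j hj; omega
  | succ r ih =>
    intro t c j hj z hz
    rw [Machine.stage]
    rcases j with _ | j
    · simp only [Machine.run, Machine.exam, Nat.add_zero, adj_inp] at hz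
      rcases hz with hz | hz
      · exact Or.inr (Or.inl hz)
      · rcases he : M.ask (G0 m) t c with e | b
        · rw [he] at hz
          have h1 := (touched_rdE e (fun y => M.stage r (t + 1) (M.after (G0 m) t c y)) σ).2 z hz
          rcases h1 with h1 | h1
          · exact Or.inl h1
          · exact Or.inr (Or.inr h1)
        · rw [he] at hz; exact absurd hz (by simp)
    · rw [Machine.run, Machine.next, adj_inp] at hz
      rcases he : M.ask (G0 m) t c with e | b
      · simp only [he] at hz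
        rw [show t + (j + 1) = t + 1 + j by omega] at hz
        obtain ⟨h1, h2⟩ := touched_rdE e (fun y => M.stage r (t + 1) (M.after (G0 m) t c y)) σ
        rcases ih (t + 1) _ j (by omega) z hz with h3 | h3 | ⟨v, hv, h3⟩
        · exact Or.inl h3
        · rcases after_range _ _ _ _ _ _ h3 with h4 | h4
          · exact Or.inr (Or.inl h4)
          · rcases h2 z h4 with h5 | h5
            · exact Or.inl h5
            · exact Or.inr (Or.inr h5)
        · exact Or.inr (Or.inr ⟨v, h1 hv, h3⟩)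
      · simp only [he] at hz
        rw [run_inr] at hz
        simp [Machine.exam] at hz

theorem conf_lt (M : Machine m p Q) (σ : Ps m ≃ Lb m) (t : ℕ) (c : Q × (Fin p → ℕ))
    (h : M.conf (inp m σ) t = Sum.inl c) : ∀ i, c.2 i < 2 * m + 5 := by
  induction t generalizing c with
  | zero =>
    simp only [Machine.conf, Sum.inl.injEq] at h
    intro i; rw [← h]; simp
  | succ t ih =>
    rw [Machine.conf] at h
    rcases hc : M.conf (inp m σ) t with c' | b
    · rw [hc] at h
      have ih' := ih c' hc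
      simp only [Machine.next] at h
      rcases he : M.ask (Adj (inp m σ)) t c' with e | b
      · simp only [he, Sum.inl.injEq] at h
        intro i
        rw [← h]
        have h6 := inp_lt (σ : Ps m → Lb m) e
        rcases after_range M (Adj (inp m σ)) t c' (inp m σ e) _ ⟨i, rfl⟩ with ⟨j, hj⟩ | hj | hj
        · rw [← hj]; exact ih' j
        · rw [hj]; exact h6.1
        · rw [hj]; exact h6.2
      · simp [he] at h
    · rw [hc] at h; simp [Machine.next] at h

end Pool.Agent.L7h39.TM
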